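import Mathlib
import Pool.Agent.Helper42.DB.Goals2

set_option autoImplicit false

/-!
# Dispersing billiards (MP_48f005_an): packet LIM (helper59)
-/

namespace Pool.Agent.Helper42.DB.PkLIM

open Set Filter Topology
open Pool.Agent.Helper42.DB

variable {S : Sys}

/-- A preconnected set which meets an open set and misses its frontier is contained in it. -/
lemma sub_of_frontier {X : Type*} [TopologicalSpace X] {s Y : Set X} (hY : IsOpen Y)
    (hs : IsPreconnected s) (hf : ∀ x ∈ s, x ∉ frontier Y) (hn : (s ∩ Y).Nonempty) : s ⊆ Y := by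
  refine hs.subset_left_of_subset_union hY isClosed_closure.isOpen_compl
    (disjoint_left.mpr fun x hx hx' => hx' (subset_closure hx)) (fun x hx => ?_) hn
  by_cases h : x ∈ closure Y
  · left
    by_contra h2
    exact hf x hx ⟨h, fun h3 => h2 (interior_subset h3)⟩
  · right; exact h

/-- The supporting line of an arc. -/
lemma supp (h1 : G_ARC S) (i : S.ι) {u v : ℝ} (hu : u ∈ Icc (S.a i) (S.b i))
    (hv : v ∈ Icc (S.a i) (S.b i)) : dt (ee u) (S.g i v - S.g i u) ≤ 0 := by
  obtain ⟨hκ, -, -, h⟩ := h1 i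
  have h2 := h u hu (S.g i v) (subset_convexHull ℝ _ ⟨v, hv, rfl⟩)
  have h3 : dt (ee u) (S.g i v - S.g i u) = -dt (ee u) (S.g i u - S.g i v) := by
    rw [dt_sub_right, dt_sub_right]; ring
  have h4 : 0 ≤ S.κ * ‖S.g i u - S.g i v‖ ^ 2 := by positivity
  linarith

/-- Limit of flights. -/
lemma fl_lim (h1 : G_ARC S) (h2 : G_FLEN S) {δ : ℝ} (hδ : 0 < δ) {i j : S.ι} {x y : ℕ → St S}
    {u φ v ψ : ℝ} (hf : ∀ q, Fl (x q) (y q)) (hn : ∀ q, ¬Near δ (x q) (y q))
    (hi : ∀ q, (x q).i = i) (hj : ∀ q, (y q).i = j)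
    (hu : Tendsto (fun q => (x q).u) atTop (𝓝 u)) (hφ : Tendsto (fun q => (x q).φ) atTop (𝓝 φ))
    (hv : Tendsto (fun q => (y q).u) atTop (𝓝 v)) (hψ : Tendsto (fun q => (y q).φ) atTop (𝓝 ψ)) :
    Fl (⟨i, u, φ⟩ : St S) ⟨j, v, ψ⟩ := by
  have hN : ∀ q, S.a i + δ ≤ (x q).u ∧ (x q).u ≤ S.b i - δ ∧ S.a j + δ ≤ (y q).u ∧
      (y q).u ≤ S.b j - δ ∧ |(x q).φ| ≤ Real.pi / 2 - δ ∧ |(y q).φ| ≤ Real.pi / 2 - δ ∧
      ∀ l, l ≠ i → l ≠ j → ∀ p ∈ segment ℝ (x q).pos (y q).pos, ∀ t ∈ Icc (S.a l) (S.b l),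
        δ ≤ dist p (S.g l t) := by
    intro q
    have h := hn q
    unfold Near at h
    rw [hi q, hj q] at h
    push Not at h
    obtain ⟨g1, g2, g3, g4, g5, g6, g7⟩ := h
    exact ⟨g1, g2, g3, g4, g5, g6, fun l hl hl' p hp t ht => g7 l hl hl' p hp t ht⟩
  have hu1 : S.a i + δ ≤ u := ge_of_tendsto' hu fun q => (hN q).1
  have hu2 : u ≤ S.b i - δ := le_of_tendsto' hu fun q => (hN q).2.1
  have hv1 : S.a j + δ ≤ v := ge_of_tendsto' hv fun q => (hN q).2.2.1
  have hv2 : v ≤ S.b j - δ := le_of_tendsto' hv fun q => (hN q).2.2.2.1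
  have hφ1 : |φ| ≤ Real.pi / 2 - δ := le_of_tendsto' hφ.abs fun q => (hN q).2.2.2.2.1
  have hψ1 : |ψ| ≤ Real.pi / 2 - δ := le_of_tendsto' hψ.abs fun q => (hN q).2.2.2.2.2.1
  have hxo : (⟨i, u, φ⟩ : St S).Ok :=
    ⟨⟨by simp only; linarith, by simp only; linarith⟩, by simp only; linarith⟩
  have hyo : (⟨j, v, ψ⟩ : St S).Ok :=
    ⟨⟨by simp only; linarith, by simp only; linarith⟩, by simp only; linarith⟩
  have huI : u ∈ Icc (S.a i) (S.b i) := ⟨by linarith, by linarith⟩
  have hvI : v ∈ Icc (S.a j) (S.b j) := ⟨by linarith, by linarith⟩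
  -- limits of positions
  have hxp : Tendsto (fun q => (x q).pos) atTop (𝓝 (S.g i u)) := by
    have h := ((S.crv i).continuous.tendsto u).comp hu
    refine h.congr fun q => ?_
    simp only [Function.comp, St.pos, Sys.g, hi q]
  have hyp : Tendsto (fun q => (y q).pos) atTop (𝓝 (S.g j v)) := by
    have h := ((S.crv j).continuous.tendsto v).comp hv
    refine h.congr fun q => ?_
    simp only [Function.comp, St.pos, Sys.g, hj q]
  have hth : Tendsto (fun q => ee (x q).th) atTop (𝓝 (ee (u + φ))) :=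
    (continuous_ee.tendsto _).comp (hu.add hφ)
  have hbk : Tendsto (fun q => ee (y q).bk) atTop (𝓝 (ee (v - ψ))) :=
    (continuous_ee.tendsto _).comp (hv.sub hψ)
  have he : ee (u + φ) = -ee (v - ψ) := by
    refine tendsto_nhds_unique hth (hbk.neg.congr fun q => ?_)
    exact ((hf q).2.2.1).symm
  have hlen : Tendsto (fun q => ‖(y q).pos - (x q).pos‖) atTop (𝓝 ‖S.g j v - S.g i u‖) :=
    (hyp.sub hxp).norm
  obtain ⟨τ, hτ, hτ2⟩ := h2 δ hδ
  set T : ℝ := ‖S.g j v - S.g i u‖ with hT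
  have hT0 : 0 < T := by
    refine lt_of_lt_of_le hτ (ge_of_tendsto' hlen fun q => ?_)
    refine hτ2 (x q) (y q) (hf q) (Or.inl ?_)
    rw [hi q]
    exact ⟨(hN q).1, (hN q).2.1⟩
  have hpos : S.g j v = S.g i u + T • ee (u + φ) := by
    refine tendsto_nhds_unique hyp ?_
    refine (hxp.add (hlen.smul hth)).congr fun q => ?_
    exact ((hf q).length.2).symm
  have hcφ : 0 < Real.cos φ := St.Ok.cos_pos hxo
  have hcψ : 0 < Real.cos ψ := St.Ok.cos_pos hyo
  have hd : ∀ s, dt (ee u) (s • ee (u + φ)) = s * Real.cos φ := by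
    intro s; rw [dt_smul_right, dt_ee_ee]; congr 2; ring
  have hd' : ∀ s, dt (ee v) (s • ee (v - ψ)) = s * Real.cos ψ := by
    intro s; rw [dt_smul_right, dt_ee_ee]
    rw [show v - ψ - v = -ψ by ring, Real.cos_neg]
  -- the open segment misses the frontier
  have hfr : ∀ s ∈ Ioo 0 T, S.g i u + s • ee (u + φ) ∉ frontier S.Y := by
    intro s hs hmem
    obtain ⟨l, hl⟩ := mem_iUnion.mp (S.bdry hmem)
    obtain ⟨t, ht, hgt⟩ := hl
    by_cases hli : l = i
    · subst hli
      have h3 := supp h1 l huI ht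
      have h4 : S.g l t - S.g l u = s • ee (u + φ) := by
        show (S.crv l).G t - _ = _
        rw [hgt]; ring
      rw [h4, hd s] at h3
      have := mul_pos hs.1 hcφ
      linarith
    by_cases hlj : l = j
    · subst hlj
      have h3 := supp h1 l hvI ht
      have h4 : S.g l t - S.g l v = (T - s) • ee (v - ψ) := by
        show (S.crv l).G t - _ = _
        rw [hgt, hpos, he]
        simp only [smul_neg, sub_smul]
        ring
      rw [h4, hd' (T - s)] at h3
      have := mul_pos (sub_pos.mpr hs.2) hcψ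
      linarith
    · have h5 : Tendsto (fun q => (x q).pos + (s / T) • ((y q).pos - (x q).pos)) atTop
          (𝓝 (S.g i u + (s / T) • (S.g j v - S.g i u))) :=
        hxp.add ((hyp.sub hxp).const_smul _)
      have h6 : S.g i u + (s / T) • (S.g j v - S.g i u) = S.g l t := by
        show _ = (S.crv l).G t
        rw [hgt, hpos, add_sub_cancel_left, smul_smul, div_mul_cancel₀ _ hT0.ne']
      rw [h6] at h5
      have h7 : Tendsto (fun q => dist ((x q).pos + (s / T) • ((y q).pos - (x q).pos)) (S.g l t))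
          atTop (𝓝 0) := by
        have := h5.dist (tendsto_const_nhds (x := S.g l t))
        rwa [dist_self] at this
      have h8 : δ ≤ 0 := by
        refine ge_of_tendsto' h7 fun q => ?_
        refine (hN q).2.2.2.2.2.2 l hli hlj _ ?_ t ht
        refine ⟨1 - s / T, s / T, ?_, ?_, by ring, ?_⟩
        · rw [sub_nonneg, div_le_one hT0]; exact hs.2.le
        · exact div_nonneg hs.1.le hT0.le
        · simp only [smul_sub, sub_smul, one_smul]; ring
      linarith
  -- near the start the open segment is in the table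
  have hst : ∃ s ∈ Ioo 0 T, S.g i u + s • ee (u + φ) ∈ S.Y := by
    obtain ⟨ε, hε, hball⟩ := S.front i u hxo.1
    refine ⟨min ε T / 2, ⟨by positivity, ?_⟩, ?_⟩
    · have := min_le_right ε T
      linarith
    set s := min ε T / 2 with hs
    have hs0 : 0 < s := by positivity
    have hsε : s < ε := by
      have := min_le_left ε T
      linarith
    have h3 : S.g i u + s • ee (u + φ) ∈ Metric.ball ((S.crv i).G u) ε := by
      rw [Metric.mem_ball, dist_eq_norm]
      have h4 : S.g i u + s • ee (u + φ) - (S.crv i).G u = s • ee (u + φ) := by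
        show (S.crv i).G u + _ - _ = _
        ring
      rw [h4, norm_smul, norm_ee, mul_one, Real.norm_eq_abs, abs_of_pos hs0]
      exact hsε
    rcases hball _ h3 with h5 | ⟨t, ht, r, hr, h5⟩
    · exact h5
    · exfalso
      have h6 := supp h1 i huI ht
      have h7 : s • ee (u + φ) = (S.g i t - S.g i u) - r • ee t := by
        have h8 : s • ee (u + φ) = (S.g i u + s • ee (u + φ)) - S.g i u := by ring
        rw [h8, h5]
        show _ = (S.crv i).G t - (S.crv i).G u - _
        ring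
      have h9 : dt (ee u) (s • ee (u + φ)) ≤ 0 := by
        rw [h7, dt_sub_right, dt_smul_right, dt_ee_ee]
        have h10 : 0 ≤ Real.cos (t - u) := by
          have h11 := S.turn i
          have h12 : |t - u| ≤ 1 / 4 := by
            rw [abs_le]; constructor <;> linarith [huI.1, huI.2, ht.1, ht.2]
          have h13 := abs_le.mp h12
          have h14 := Real.pi_gt_three
          exact Real.cos_nonneg_of_mem_Icc ⟨by linarith, by linarith⟩
        have := mul_nonneg hr h10
        linarith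
      rw [hd s] at h9
      have := mul_pos hs0 hcφ
      linarith
  have hY : (fun s : ℝ => S.g i u + s • ee (u + φ)) '' Ioo 0 T ⊆ S.Y := by
    refine sub_of_frontier S.isOpen_Y ?_ ?_ ?_
    · refine isPreconnected_Ioo.image _ ?_
      exact (continuous_const.add (continuous_id.smul continuous_const)).continuousOn
    · rintro _ ⟨s, hs, rfl⟩
      exact hfr s hs
    · obtain ⟨s, hs, hs2⟩ := hst
      exact ⟨_, ⟨s, hs, rfl⟩, hs2⟩
  exact ⟨hxo, hyo, he, T, hT0, hpos, fun s hs => hY ⟨s, hs, rfl⟩⟩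

theorem thm (S : Sys) : G_ARC S → G_FLEN S → G_LIM S := by
  intro h1 h2 n w δ m hn hδ hc hN
  -- compactness
  let K : Set (Fin (n + 1) → ℝ × ℝ) := Set.univ.pi fun k : Fin (n + 1) =>
    Icc (S.a (w k)) (S.b (w k)) ×ˢ Icc (-(Real.pi / 2)) (Real.pi / 2)
  have hK : IsCompact K := isCompact_univ_pi fun k => isCompact_Icc.prod isCompact_Icc
  let f : ℕ → (Fin (n + 1) → ℝ × ℝ) := fun q k => ((m q k).u, (m q k).φ)
  have hf : ∀ q, f q ∈ K := by
    intro q k _
    have hk : (k : ℕ) ≤ n := by omega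
    have h3 := (hc q).1.1 k hk
    have h4 := (hc q).2 k hk
    refine ⟨?_, ?_⟩
    · show (m q k).u ∈ _
      rw [← h4]; exact Ioo_subset_Icc_self h3.1
    · show (m q k).φ ∈ _
      have := abs_lt.mp h3.2
      exact ⟨this.1.le, this.2.le⟩
  obtain ⟨L, -, s, hs, hL⟩ := hK.tendsto_subseq hf
  have hLk : ∀ k : Fin (n + 1), Tendsto (fun q => (m (s q) k).u) atTop (𝓝 (L k).1) ∧
      Tendsto (fun q => (m (s q) k).φ) atTop (𝓝 (L k).2) := by
    intro k
    have h3 := (tendsto_pi_nhds.mp hL) k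
    exact ⟨(continuous_fst.tendsto _).comp h3, (continuous_snd.tendsto _).comp h3⟩
  let z : ℕ → St S := fun k => if h : k < n + 1 then ⟨w k, (L ⟨k, h⟩).1, (L ⟨k, h⟩).2⟩
    else ⟨w k, 0, 0⟩
  have hz : ∀ k (h : k < n + 1), z k = ⟨w k, (L ⟨k, h⟩).1, (L ⟨k, h⟩).2⟩ := by
    intro k h; simp only [z, dif_pos h]
  have hfl : ∀ k < n, Fl (z k) (z (k + 1)) := by
    intro k hk
    rw [hz k (by omega), hz (k + 1) (by omega)]
    refine fl_lim (x := fun q => m (s q) k) (y := fun q => m (s q) (k + 1)) h1 h2 hδ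
      (fun q => (hc (s q)).1.2 k hk) (fun q => hN (s q) k hk)
      (fun q => (hc (s q)).2 k hk.le) (fun q => (hc (s q)).2 (k + 1) hk)
      (hLk ⟨k, by omega⟩).1 (hLk ⟨k, by omega⟩).2 (hLk ⟨k + 1, by omega⟩).1
      (hLk ⟨k + 1, by omega⟩).2
  refine ⟨z, s, ⟨⟨fun k hk => ?_, hfl⟩, fun k hk => ?_⟩, hs, fun k hk => ?_⟩
  · rcases Nat.lt_or_ge k n with h | h
    · exact (hfl k h).1
    · have h3 : k = (n - 1) + 1 := by omega
      rw [h3]
      exact (hfl (n - 1) (by omega)).2.1
  · rw [hz k (by omega)]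
  · rw [hz k (by omega)]
    exact hLk ⟨k, by omega⟩

end Pool.Agent.Helper42.DB.PkLIM

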